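import Mathlib

namespace Pool.Agent.Results.MP_2f9b3f_lc.ContextualExtremePoint

open Finset

/-- Assignments of outcomes to the variables in `S`; the outcome set of variable `i` is
`Fin (k i)`. -/
abbrev Out {n : ℕ} (k : Fin n → ℕ) (S : Finset (Fin n)) : Type := (i : S) → Fin (k i)

/-- A marginal scenario: closed under subsets, contains `∅` and all singletons. -/
structure IsScenario {n : ℕ} (M : Set (Finset (Fin n))) : Prop where
  empty : ∅ ∈ M
  singleton : ∀ i, {i} ∈ M
  down : ∀ S ∈ M, ∀ S', S' ⊆ S → S' ∈ M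

/-- Families of real functions on the outcome sets `O_S`, `S ∈ M`. -/
abbrev Fam {n : ℕ} (M : Set (Finset (Fin n))) (k : Fin n → ℕ) : Type :=
  (S : M) → Out k S.1 → ℝ

/-- Restriction of an assignment on `S` to `S' ⊆ S`. -/
def restr {n : ℕ} {k : Fin n → ℕ} {S S' : Finset (Fin n)} (h : S' ⊆ S) (x : Out k S) :
    Out k S' := fun i => x ⟨i.1, h i.2⟩

/-- The polytope `P(M, O)` of marginal models. -/
def polytope {n : ℕ} (M : Set (Finset (Fin n))) (k : Fin n → ℕ) : Set (Fam M k) :=
  {p | (∀ (S : M) (x : Out k S.1), 0 ≤ p S x) ∧ (∀ S : M, ∑ x, p S x = 1) ∧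
    ∀ (S S' : M) (h : S'.1 ⊆ S.1) (y : Out k S'.1),
      ∑ x, (if restr h x = y then p S x else 0) = p S' y}

/-- Shannon entropy (natural logarithm) of the distributions of a marginal model. -/
noncomputable def entropy {n : ℕ} {M : Set (Finset (Fin n))} {k : Fin n → ℕ} (p : Fam M k)
    (S : M) : ℝ := ∑ x, Real.negMulLog (p S x)

/-- Polymatroids on `[n]`. -/
structure IsPolymatroid {n : ℕ} (f : Finset (Fin n) → ℝ) : Prop where
  empty : f ∅ = 0
  mono : ∀ S T, S ⊆ T → f S ≤ f T
  submod : ∀ S T, f (S ∪ T) + f (S ∩ T) ≤ f S + f T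

/-- `g : M → ℝ` is non-contextual if it is the restriction of a polymatroid. -/
def NonContextual {n : ℕ} (M : Set (Finset (Fin n))) (g : M → ℝ) : Prop :=
  ∃ f : Finset (Fin n) → ℝ, IsPolymatroid f ∧ ∀ S : M, g S = f S.1

/-! ### The example -/

/-- The pairs of the scenario. -/
def pairs : Finset (Finset (Fin 6)) := {{0,1},{1,2},{0,2},{0,3},{3,4},{4,5},{3,5}}

/-- The scenario. -/
def Sc : Set (Finset (Fin 6)) := {S | S.card ≤ 1 ∨ S ∈ pairs}

def hh : Fin 3 → Fin 3 := ![0, 0, 1]

def G (S : Finset (Fin 6)) (w : Fin 3) (i : Fin 6) : Fin 3 :=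
  if S = {0,2} ∧ i = 0 then w + 1
  else if S = {3,5} ∧ i = 5 then hh (w + 1)
  else if i < 3 then w else hh w

abbrev kk : Fin 6 → ℕ := fun _ => 3

def res (S : Finset (Fin 6)) (g : Fin 6 → Fin 3) : Out kk S := fun i => g i.1

theorem res_eq_iff (S : Finset (Fin 6)) (g g' : Fin 6 → Fin 3) :
    res S g = res S g' ↔ ∀ i ∈ S, g i = g' i := by
  constructor
  · intro h i hi
    exact congrFun h ⟨i, hi⟩
  · intro h
    funext i
    exact h i.1 i.2

theorem res_surj (S : Finset (Fin 6)) (x : Out kk S) : ∃ g : Fin 6 → Fin 3, res S g = x := by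
  refine ⟨fun i => if h : i ∈ S then x ⟨i, h⟩ else 0, ?_⟩
  funext i
  simp [res]

theorem restr_res {S S' : Finset (Fin 6)} (h : S' ⊆ S) (g : Fin 6 → Fin 3) :
    restr (k := kk) h (res S g) = res S' g := rfl

/-- the marginal model -/
noncomputable def P0 : Fam Sc kk := fun S x => ∑ w : Fin 3, if res S.1 (G S.1 w) = x then 1/3 else 0

theorem sc_isScenario : IsScenario Sc := by
  refine ⟨Or.inl (by simp), fun i => Or.inl (by simp), ?_⟩
  rintro S (hS | hS) S' h
  · exact Or.inl ((card_le_card h).trans hS)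
  · by_cases hc : S'.card ≤ 1
    · exact Or.inl hc
    · right
      have h2 : S.card = 2 := by
        revert S
        have : ∀ S ∈ pairs, S.card = 2 := by decide
        intro S hS _
        exact this S hS
      have : S' = S := eq_of_subset_of_card_le h (by omega)
      rw [this]; exact hS

theorem G_marg : ∀ S ∈ pairs, ∀ i ∈ S, ∀ c : Fin 3,
    (univ.filter (fun w => G S w i = c)).card = (univ.filter (fun w => G {i} w i = c)).card := by
  decide

theorem pairs_sub {S : Finset (Fin 6)} (hS : S ∈ Sc) {S' : Finset (Fin 6)} (h : S' ⊆ S) :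
    S' = S ∨ S' = ∅ ∨ (S ∈ pairs ∧ ∃ i ∈ S, S' = {i}) := by
  rcases hS with hS | hS
  · rcases S'.eq_empty_or_nonempty with h0 | h0
    · exact Or.inr (Or.inl h0)
    · left
      exact eq_of_subset_of_card_le h (hS.trans (card_pos.2 h0))
  · have h2 : S.card = 2 := by
      revert S
      have : ∀ S ∈ pairs, S.card = 2 := by decide
      intro S _ hS
      exact this S hS
    rcases Nat.lt_or_ge S'.card 2 with h3 | h3
    · rcases Nat.lt_or_ge S'.card 1 with h4 | h4
      · exact Or.inr (Or.inl (card_eq_zero.1 (by omega)))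
      · obtain ⟨i, hi⟩ := card_eq_one.1 (show S'.card = 1 by omega)
        exact Or.inr (Or.inr ⟨hS, i, h (by simp [hi]), hi⟩)
    · left
      exact eq_of_subset_of_card_le h (by omega)

theorem P0_mem : P0 ∈ polytope Sc kk := by
  refine ⟨?_, ?_, ?_⟩
  · intro S x
    exact sum_nonneg fun w _ => by split_ifs <;> norm_num
  · intro S
    unfold P0
    rw [sum_comm]
    simp
  · intro S S' h y
    have e1 : ∑ x, (if restr h x = y then P0 S x else 0)
        = ∑ w : Fin 3, if res S'.1 (G S.1 w) = y then (1/3 : ℝ) else 0 := by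
      have : ∀ x : Out kk S.1, (if restr h x = y then P0 S x else 0)
          = ∑ w : Fin 3, if res S.1 (G S.1 w) = x then (if res S'.1 (G S.1 w) = y then (1/3 : ℝ) else 0) else 0 := by
        intro x
        split_ifs with hx
        · refine sum_congr rfl fun w _ => ?_
          by_cases h1 : res S.1 (G S.1 w) = x
          · subst h1
            rw [restr_res] at hx
            simp [hx]
          · simp [h1]
        · refine (sum_eq_zero fun w _ => ?_).symm
          by_cases h1 : res S.1 (G S.1 w) = x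
          · subst h1
            rw [restr_res] at hx
            simp [hx]
          · simp [h1]
      rw [sum_congr rfl fun x _ => this x, sum_comm]
      simp
    rw [e1]
    rcases pairs_sub S.2 h with h0 | h0 | ⟨h0, i, hi, h1⟩
    · have : S' = S := Subtype.ext h0
      subst this
      rfl
    · obtain ⟨S', hS'⟩ := S'
      simp only at h0
      subst h0
      unfold P0
      refine sum_congr rfl fun w _ => ?_
      have a : res ∅ (G S.1 w) = y := by funext i; exact absurd i.2 (Finset.notMem_empty _)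
      have b : res ∅ (G ∅ w) = y := by funext i; exact absurd i.2 (Finset.notMem_empty _)
      simp [a, b]
    · obtain ⟨S', hS'⟩ := S'
      simp only at h1
      subst h1
      unfold P0
      obtain ⟨g, rfl⟩ := res_surj _ y
      simp only [res_eq_iff, mem_singleton, forall_eq]
      have := G_marg S.1 h0 i hi (g i)
      rw [← sum_filter, ← sum_filter, sum_const, sum_const, this]

/-- the support condition -/
def Supp (q : Fam Sc kk) : Prop := ∀ (S : Sc) (x : Out kk S.1), (∀ w, res S.1 (G S.1 w) ≠ x) → q S x = 0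

theorem P0_supp : Supp P0 := by
  intro S x hx
  unfold P0
  exact sum_eq_zero fun w _ => by simp [hx w]

theorem sum_supp (S : Finset (Fin 6)) (W : Finset (Fin 3))
    (hinj : ∀ w ∈ W, ∀ w' ∈ W, (∀ i ∈ S, G S w i = G S w' i) → w = w')
    (hsurj : ∀ w, ∃ w' ∈ W, ∀ i ∈ S, G S w' i = G S w i)
    (F : Out kk S → ℝ) (hF : ∀ x, (∀ w, res S (G S w) ≠ x) → F x = 0) :
    ∑ x, F x = ∑ w ∈ W, F (res S (G S w)) := by
  classical
  rw [← sum_image (s := W) (g := fun w => res S (G S w)) (f := F)]
  · symm
    refine sum_subset (subset_univ _) fun x _ hx => hF x fun w hw => hx ?_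
    obtain ⟨w', hw', h⟩ := hsurj w
    exact mem_image.2 ⟨w', hw', ((res_eq_iff _ _ _).2 h).trans hw⟩
  · intro w hw w' hw' h
    exact hinj w hw w' hw' ((res_eq_iff _ _ _).1 h)

theorem marg {q : Fam Sc kk} (hq : q ∈ polytope Sc kk) (hs : Supp q) {S : Finset (Fin 6)}
    (hS : S ∈ Sc) {i : Fin 6} (hi : i ∈ S) (W : Finset (Fin 3))
    (hinj : ∀ w ∈ W, ∀ w' ∈ W, (∀ i ∈ S, G S w i = G S w' i) → w = w')
    (hsurj : ∀ w, ∃ w' ∈ W, ∀ i ∈ S, G S w' i = G S w i) (c : Fin 3) :
    q ⟨{i}, sc_isScenario.singleton i⟩ (fun _ => c)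
      = ∑ w ∈ W, if G S w i = c then q ⟨S, hS⟩ (res S (G S w)) else 0 := by
  have h := hq.2.2 ⟨S, hS⟩ ⟨{i}, sc_isScenario.singleton i⟩ (by simpa using hi) (fun _ => c)
  rw [← h, sum_supp S W hinj hsurj]
  · refine sum_congr rfl fun w _ => ?_
    rw [restr_res]
    have : (res {i} (G S w) = fun _ => c) ↔ G S w i = c := by
      constructor
      · intro h; exact congrFun h ⟨i, by simp⟩
      · intro h; funext j; have := j.2; simp only [mem_singleton] at this
        simp [res, this, h]
    simp only [this]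
  · intro x hx
    rw [hs ⟨S, hS⟩ x hx, ite_self]


theorem mem_pairs {S : Finset (Fin 6)} (h : S ∈ pairs) : S ∈ Sc := Or.inr h

/-- The value of `q` at the `w`-th support point of `S`. -/
noncomputable def val (q : Fam Sc kk) (S : Finset (Fin 6)) (w : Fin 3) : ℝ :=
  open Classical in if h : S ∈ Sc then q ⟨S, h⟩ (res S (G S w)) else 0

/-- The single-variable marginals. -/
noncomputable def sg (q : Fam Sc kk) (i : Fin 6) (c : Fin 3) : ℝ :=
  q ⟨{i}, sc_isScenario.singleton i⟩ (fun _ => c)

theorem marg' {q : Fam Sc kk} (hq : q ∈ polytope Sc kk) (hs : Supp q) {S : Finset (Fin 6)}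
    (hS : S ∈ pairs) {i : Fin 6} (hi : i ∈ S) (W : Finset (Fin 3))
    (hinj : ∀ w ∈ W, ∀ w' ∈ W, (∀ i ∈ S, G S w i = G S w' i) → w = w')
    (hsurj : ∀ w, ∃ w' ∈ W, ∀ i ∈ S, G S w' i = G S w i) (c : Fin 3) :
    sg q i c = ∑ w ∈ W, if G S w i = c then val q S w else 0 := by
  unfold sg val
  rw [marg hq hs (mem_pairs hS) hi W hinj hsurj c]
  simp only [dif_pos (mem_pairs hS)]

/-- The values forced by the marginal conditions and the support. -/
noncomputable def T (S : Finset (Fin 6)) (w : Fin 3) : ℝ :=
  if S = {3,4} ∨ S = {4,5} then (if w = 2 then 1/3 else 2/3) else 1/3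

theorem tot {q : Fam Sc kk} (hq : q ∈ polytope Sc kk) (hs : Supp q) :
    val q {0,1} 0 + val q {0,1} 1 + val q {0,1} 2 = 1 := by
  have h := hq.2.1 ⟨{0,1}, mem_pairs (by decide)⟩
  rw [sum_supp {0,1} univ (by decide) (by decide)] at h
  · rw [Fin.sum_univ_three] at h
    unfold val
    simp only [dif_pos (mem_pairs (show ({0,1} : Finset (Fin 6)) ∈ pairs by decide))]
    exact h
  · intro x hx
    exact hs ⟨{0,1}, mem_pairs (by decide)⟩ x hx

theorem val_congr (q : Fam Sc kk) (S : Finset (Fin 6)) (w w' : Fin 3)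
    (h : ∀ i ∈ S, G S w i = G S w' i) : val q S w = val q S w' := by
  unfold val
  rw [(res_eq_iff _ _ _).2 h]

theorem forced {q : Fam Sc kk} (hq : q ∈ polytope Sc kk) (hs : Supp q) :
    (∀ S ∈ pairs, ∀ w, val q S w = T S w) ∧ (∀ i, i < 3 → ∀ c, sg q i c = 1/3) ∧
    (∀ i, 3 ≤ i → sg q i 0 = 2/3 ∧ sg q i 1 = 1/3 ∧ sg q i 2 = 0) := by
  have m01 := fun i hi c => marg' hq hs (S := {0,1}) (by decide) (i := i) hi univ (by decide) (by decide) c
  have m12 := fun i hi c => marg' hq hs (S := {1,2}) (by decide) (i := i) hi univ (by decide) (by decide) c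
  have m02 := fun i hi c => marg' hq hs (S := {0,2}) (by decide) (i := i) hi univ (by decide) (by decide) c
  have m03 := fun i hi c => marg' hq hs (S := {0,3}) (by decide) (i := i) hi univ (by decide) (by decide) c
  have m35 := fun i hi c => marg' hq hs (S := {3,5}) (by decide) (i := i) hi univ (by decide) (by decide) c
  have m34 := fun i hi c => marg' hq hs (S := {3,4}) (by decide) (i := i) hi {0,2} (by decide) (by decide) c
  have m45 := fun i hi c => marg' hq hs (S := {4,5}) (by decide) (i := i) hi {0,2} (by decide) (by decide) c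
  have htot := tot hq hs
  have e01_0_0 : sg q 0 0 = val q {0,1} 0 := by
    rw [m01 0 (by decide) 0, Fin.sum_univ_three, if_pos (by decide), if_neg (by decide), if_neg (by decide)]; ring
  have e01_0_1 : sg q 0 1 = val q {0,1} 1 := by
    rw [m01 0 (by decide) 1, Fin.sum_univ_three, if_neg (by decide), if_pos (by decide), if_neg (by decide)]; ring
  have e01_0_2 : sg q 0 2 = val q {0,1} 2 := by
    rw [m01 0 (by decide) 2, Fin.sum_univ_three, if_neg (by decide), if_neg (by decide), if_pos (by decide)]; ring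
  have e01_1_0 : sg q 1 0 = val q {0,1} 0 := by
    rw [m01 1 (by decide) 0, Fin.sum_univ_three, if_pos (by decide), if_neg (by decide), if_neg (by decide)]; ring
  have e01_1_1 : sg q 1 1 = val q {0,1} 1 := by
    rw [m01 1 (by decide) 1, Fin.sum_univ_three, if_neg (by decide), if_pos (by decide), if_neg (by decide)]; ring
  have e01_1_2 : sg q 1 2 = val q {0,1} 2 := by
    rw [m01 1 (by decide) 2, Fin.sum_univ_three, if_neg (by decide), if_neg (by decide), if_pos (by decide)]; ring
  have e12_1_0 : sg q 1 0 = val q {1,2} 0 := by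
    rw [m12 1 (by decide) 0, Fin.sum_univ_three, if_pos (by decide), if_neg (by decide), if_neg (by decide)]; ring
  have e12_1_1 : sg q 1 1 = val q {1,2} 1 := by
    rw [m12 1 (by decide) 1, Fin.sum_univ_three, if_neg (by decide), if_pos (by decide), if_neg (by decide)]; ring
  have e12_1_2 : sg q 1 2 = val q {1,2} 2 := by
    rw [m12 1 (by decide) 2, Fin.sum_univ_three, if_neg (by decide), if_neg (by decide), if_pos (by decide)]; ring
  have e12_2_0 : sg q 2 0 = val q {1,2} 0 := by
    rw [m12 2 (by decide) 0, Fin.sum_univ_three, if_pos (by decide), if_neg (by decide), if_neg (by decide)]; ring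
  have e12_2_1 : sg q 2 1 = val q {1,2} 1 := by
    rw [m12 2 (by decide) 1, Fin.sum_univ_three, if_neg (by decide), if_pos (by decide), if_neg (by decide)]; ring
  have e12_2_2 : sg q 2 2 = val q {1,2} 2 := by
    rw [m12 2 (by decide) 2, Fin.sum_univ_three, if_neg (by decide), if_neg (by decide), if_pos (by decide)]; ring
  have e02_0_0 : sg q 0 0 = val q {0,2} 2 := by
    rw [m02 0 (by decide) 0, Fin.sum_univ_three, if_neg (by decide), if_neg (by decide), if_pos (by decide)]; ring
  have e02_0_1 : sg q 0 1 = val q {0,2} 0 := by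
    rw [m02 0 (by decide) 1, Fin.sum_univ_three, if_pos (by decide), if_neg (by decide), if_neg (by decide)]; ring
  have e02_0_2 : sg q 0 2 = val q {0,2} 1 := by
    rw [m02 0 (by decide) 2, Fin.sum_univ_three, if_neg (by decide), if_pos (by decide), if_neg (by decide)]; ring
  have e02_2_0 : sg q 2 0 = val q {0,2} 0 := by
    rw [m02 2 (by decide) 0, Fin.sum_univ_three, if_pos (by decide), if_neg (by decide), if_neg (by decide)]; ring
  have e02_2_1 : sg q 2 1 = val q {0,2} 1 := by
    rw [m02 2 (by decide) 1, Fin.sum_univ_three, if_neg (by decide), if_pos (by decide), if_neg (by decide)]; ring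
  have e02_2_2 : sg q 2 2 = val q {0,2} 2 := by
    rw [m02 2 (by decide) 2, Fin.sum_univ_three, if_neg (by decide), if_neg (by decide), if_pos (by decide)]; ring
  have e03_0_0 : sg q 0 0 = val q {0,3} 0 := by
    rw [m03 0 (by decide) 0, Fin.sum_univ_three, if_pos (by decide), if_neg (by decide), if_neg (by decide)]; ring
  have e03_0_1 : sg q 0 1 = val q {0,3} 1 := by
    rw [m03 0 (by decide) 1, Fin.sum_univ_three, if_neg (by decide), if_pos (by decide), if_neg (by decide)]; ring
  have e03_0_2 : sg q 0 2 = val q {0,3} 2 := by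
    rw [m03 0 (by decide) 2, Fin.sum_univ_three, if_neg (by decide), if_neg (by decide), if_pos (by decide)]; ring
  have e03_3_0 : sg q 3 0 = val q {0,3} 0 + val q {0,3} 1 := by
    rw [m03 3 (by decide) 0, Fin.sum_univ_three, if_pos (by decide), if_pos (by decide), if_neg (by decide)]; ring
  have e03_3_1 : sg q 3 1 = val q {0,3} 2 := by
    rw [m03 3 (by decide) 1, Fin.sum_univ_three, if_neg (by decide), if_neg (by decide), if_pos (by decide)]; ring
  have e35_3_0 : sg q 3 0 = val q {3,5} 0 + val q {3,5} 1 := by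
    rw [m35 3 (by decide) 0, Fin.sum_univ_three, if_pos (by decide), if_pos (by decide), if_neg (by decide)]; ring
  have e35_3_1 : sg q 3 1 = val q {3,5} 2 := by
    rw [m35 3 (by decide) 1, Fin.sum_univ_three, if_neg (by decide), if_neg (by decide), if_pos (by decide)]; ring
  have e35_5_0 : sg q 5 0 = val q {3,5} 0 + val q {3,5} 2 := by
    rw [m35 5 (by decide) 0, Fin.sum_univ_three, if_pos (by decide), if_neg (by decide), if_pos (by decide)]; ring
  have e35_5_1 : sg q 5 1 = val q {3,5} 1 := by
    rw [m35 5 (by decide) 1, Fin.sum_univ_three, if_neg (by decide), if_pos (by decide), if_neg (by decide)]; ring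
  have e34_3_0 : sg q 3 0 = val q {3,4} 0 := by
    rw [m34 3 (by decide) 0, sum_pair (by decide), if_pos (by decide), if_neg (by decide)]; ring
  have e34_3_1 : sg q 3 1 = val q {3,4} 2 := by
    rw [m34 3 (by decide) 1, sum_pair (by decide), if_neg (by decide), if_pos (by decide)]; ring
  have e34_4_0 : sg q 4 0 = val q {3,4} 0 := by
    rw [m34 4 (by decide) 0, sum_pair (by decide), if_pos (by decide), if_neg (by decide)]; ring
  have e34_4_1 : sg q 4 1 = val q {3,4} 2 := by
    rw [m34 4 (by decide) 1, sum_pair (by decide), if_neg (by decide), if_pos (by decide)]; ring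
  have e45_4_0 : sg q 4 0 = val q {4,5} 0 := by
    rw [m45 4 (by decide) 0, sum_pair (by decide), if_pos (by decide), if_neg (by decide)]; ring
  have e45_4_1 : sg q 4 1 = val q {4,5} 2 := by
    rw [m45 4 (by decide) 1, sum_pair (by decide), if_neg (by decide), if_pos (by decide)]; ring
  have e45_5_0 : sg q 5 0 = val q {4,5} 0 := by
    rw [m45 5 (by decide) 0, sum_pair (by decide), if_pos (by decide), if_neg (by decide)]; ring
  have e45_5_1 : sg q 5 1 = val q {4,5} 2 := by
    rw [m45 5 (by decide) 1, sum_pair (by decide), if_neg (by decide), if_pos (by decide)]; ring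
  have z3 : sg q 3 2 = 0 := by
    rw [m03 3 (by decide) 2]
    exact sum_eq_zero fun w _ => if_neg (by revert w; decide)
  have z4 : sg q 4 2 = 0 := by
    rw [m34 4 (by decide) 2]
    exact sum_eq_zero fun w _ => if_neg (by revert w; decide)
  have z5 : sg q 5 2 = 0 := by
    rw [m45 5 (by decide) 2]
    exact sum_eq_zero fun w _ => if_neg (by revert w; decide)
  have d34 : val q {3,4} 1 = val q {3,4} 0 := val_congr _ _ _ _ (by decide)
  have d45 : val q {4,5} 1 = val q {4,5} 0 := val_congr _ _ _ _ (by decide)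
  refine ⟨?_, ?_, ?_⟩
  · intro S hS w
    have t1 : ∀ w, T {0,1} w = 1/3 := fun w => if_neg (by decide)
    have t2 : ∀ w, T {1,2} w = 1/3 := fun w => if_neg (by decide)
    have t3 : ∀ w, T {0,2} w = 1/3 := fun w => if_neg (by decide)
    have t4 : ∀ w, T {0,3} w = 1/3 := fun w => if_neg (by decide)
    have t5 : ∀ w, T {3,5} w = 1/3 := fun w => if_neg (by decide)
    have t6 : ∀ w, T {3,4} w = if w = 2 then 1/3 else 2/3 := fun w => if_pos (by decide)
    have t7 : ∀ w, T {4,5} w = if w = 2 then 1/3 else 2/3 := fun w => if_pos (by decide)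
    simp only [pairs, mem_insert, mem_singleton] at hS
    rcases hS with rfl | rfl | rfl | rfl | rfl | rfl | rfl
    · rw [t1]; fin_cases w <;> simp only [Fin.zero_eta, Fin.mk_one, Fin.reduceFinMk] <;> linarith
    · rw [t2]; fin_cases w <;> simp only [Fin.zero_eta, Fin.mk_one, Fin.reduceFinMk] <;> linarith
    · rw [t3]; fin_cases w <;> simp only [Fin.zero_eta, Fin.mk_one, Fin.reduceFinMk] <;> linarith
    · rw [t4]; fin_cases w <;> simp only [Fin.zero_eta, Fin.mk_one, Fin.reduceFinMk] <;> linarith
    · rw [t6]; fin_cases w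
      · rw [if_neg (by decide)]; simp only [Fin.zero_eta]; linarith
      · rw [if_neg (by decide)]; simp only [Fin.mk_one]; linarith
      · rw [if_pos (by decide)]; simp only [Fin.reduceFinMk]; linarith
    · rw [t7]; fin_cases w
      · rw [if_neg (by decide)]; simp only [Fin.zero_eta]; linarith
      · rw [if_neg (by decide)]; simp only [Fin.mk_one]; linarith
      · rw [if_pos (by decide)]; simp only [Fin.reduceFinMk]; linarith
    · rw [t5]; fin_cases w <;> simp only [Fin.zero_eta, Fin.mk_one, Fin.reduceFinMk] <;> linarith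
  · intro i hi c
    have : i = 0 ∨ i = 1 ∨ i = 2 := by revert i; decide
    rcases this with rfl | rfl | rfl <;> fin_cases c <;>
      simp only [Fin.zero_eta, Fin.mk_one, Fin.reduceFinMk] <;> linarith
  · intro i hi
    have : i = 3 ∨ i = 4 ∨ i = 5 := by revert i; decide
    rcases this with rfl | rfl | rfl
    · refine ⟨?_, ?_, z3⟩ <;> linarith
    · refine ⟨?_, ?_, z4⟩ <;> linarith
    · refine ⟨?_, ?_, z5⟩ <;> linarith

/-- `P0` is the only marginal model supported in its support. -/
theorem unique {q : Fam Sc kk} (hq : q ∈ polytope Sc kk) (hs : Supp q) : q = P0 := by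
  obtain ⟨a1, a2, a3⟩ := forced hq hs
  obtain ⟨b1, b2, b3⟩ := forced P0_mem P0_supp
  funext S x
  by_cases hx : ∀ w, res S.1 (G S.1 w) ≠ x
  · rw [hs S x hx, P0_supp S x hx]
  · push Not at hx
    obtain ⟨w, rfl⟩ := hx
    obtain ⟨S, hS⟩ := S
    by_cases hp : S ∈ pairs
    · have h := (a1 S hp w).trans (b1 S hp w).symm
      unfold val at h
      rw [dif_pos hS, dif_pos hS] at h
      exact h
    · have hc : S.card ≤ 1 := hS.resolve_right hp
      rcases Nat.lt_or_ge S.card 1 with h4 | h4
      · have h5 : S = ∅ := card_eq_zero.1 (by omega)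
        subst h5
        have e := hq.2.1 ⟨∅, hS⟩
        have e' := P0_mem.2.1 ⟨∅, hS⟩
        have : ∀ F : Out kk ∅ → ℝ, ∑ x, F x = F (res ∅ (G ∅ w)) := by
          intro F
          rw [Fintype.sum_eq_single]
          intro x hx
          exact absurd (funext fun i => absurd i.2 (Finset.notMem_empty _)) hx
        rw [this] at e e'
        exact e.trans e'.symm
      · obtain ⟨i, hi⟩ := card_eq_one.1 (show S.card = 1 by omega)
        subst hi
        have key : ∀ c, sg q i c = sg P0 i c := by
          intro c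
          rcases lt_or_ge i 3 with h | h
          · rw [a2 i h, b2 i h]
          · obtain ⟨u1, u2, u3⟩ := a3 i h
            obtain ⟨v1, v2, v3⟩ := b3 i h
            fin_cases c
            · exact u1.trans v1.symm
            · exact u2.trans v2.symm
            · exact u3.trans v3.symm
        have h := key (G {i} w i)
        have e : (fun _ => G {i} w i : Out kk {i}) = res {i} (G {i} w) := by
          funext j
          have := j.2
          simp only [mem_singleton] at this
          simp [res, this]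
        unfold sg at h
        rw [e] at h
        exact h

theorem P0_extreme : P0 ∈ (polytope Sc kk).extremePoints ℝ := by
  refine ⟨P0_mem, ?_⟩
  intro q hq r hr hseg
  obtain ⟨a, b, ha, hb, hab, h⟩ := hseg
  have hsq : Supp q := by
    intro S x hx
    have h0 := P0_supp S x hx
    have h1 : a * q S x + b * r S x = P0 S x := by
      rw [← h]; simp [Pi.add_apply, Pi.smul_apply]
    rw [h0] at h1
    have hq0 := hq.1 S x
    have hr0 := hr.1 S x
    have h2 : a * q S x = 0 := by nlinarith [mul_nonneg ha.le hq0, mul_nonneg hb.le hr0]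
    rcases mul_eq_zero.1 h2 with h3 | h3
    · exact absurd h3 ha.ne'
    · exact h3
  exact unique hq hsq

theorem entropy_pair {S : Finset (Fin 6)} (hS : S ∈ pairs) (W : Finset (Fin 3))
    (hinj : ∀ w ∈ W, ∀ w' ∈ W, (∀ i ∈ S, G S w i = G S w' i) → w = w')
    (hsurj : ∀ w, ∃ w' ∈ W, ∀ i ∈ S, G S w' i = G S w i) :
    entropy P0 ⟨S, mem_pairs hS⟩ = ∑ w ∈ W, Real.negMulLog (T S w) := by
  unfold entropy
  rw [sum_supp S W hinj hsurj (fun x => Real.negMulLog (P0 ⟨S, mem_pairs hS⟩ x))]
  · refine sum_congr rfl fun w _ => ?_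
    have := (forced P0_mem P0_supp).1 S hS w
    unfold val at this
    rw [dif_pos (mem_pairs hS)] at this
    rw [this]
  · intro x hx
    have := P0_supp ⟨S, mem_pairs hS⟩ x hx
    simp [this]

theorem entropy_single (i : Fin 6) (hi : 3 ≤ i) :
    entropy P0 ⟨{i}, sc_isScenario.singleton i⟩ = Real.negMulLog (2/3) + Real.negMulLog (1/3) := by
  unfold entropy
  have e : ∑ x : Out kk {i}, Real.negMulLog (P0 ⟨{i}, sc_isScenario.singleton i⟩ x)
      = ∑ c : Fin 3, Real.negMulLog (sg P0 i c) := by
    refine Fintype.sum_equiv (Equiv.funUnique ({i} : Finset (Fin 6)) (Fin 3)) _ _ ?_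
    intro x
    unfold sg
    congr 2
    funext j
    have : j = default := Subsingleton.elim _ _
    rw [this]; rfl
  obtain ⟨v1, v2, v3⟩ := (forced P0_mem P0_supp).2.2 i hi
  rw [e, Fin.sum_univ_three, v1, v2, v3]
  simp

theorem contextual : ¬ NonContextual Sc (entropy P0) := by
  rintro ⟨f, hf, h⟩
  have h34 := h ⟨{3,4}, mem_pairs (by decide)⟩
  have h45 := h ⟨{4,5}, mem_pairs (by decide)⟩
  have h35 := h ⟨{3,5}, mem_pairs (by decide)⟩
  have h4 := h ⟨{4}, sc_isScenario.singleton 4⟩
  rw [entropy_pair (by decide) {0,2} (by decide) (by decide), sum_pair (by decide)] at h34 h45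
  rw [entropy_pair (by decide) univ (by decide) (by decide), Fin.sum_univ_three] at h35
  rw [entropy_single 4 (by decide)] at h4
  have t5 : ∀ w, T {3,5} w = 1/3 := fun w => if_neg (by decide)
  have t6 : ∀ w, T {3,4} w = if w = 2 then 1/3 else 2/3 := fun w => if_pos (by decide)
  have t7 : ∀ w, T {4,5} w = if w = 2 then 1/3 else 2/3 := fun w => if_pos (by decide)
  rw [t6, t6, if_neg (by decide), if_pos rfl] at h34
  rw [t7, t7, if_neg (by decide), if_pos rfl] at h45
  simp only [t5] at h35
  have s := hf.submod {3,4} {4,5}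
  rw [show ({3,4} ∪ {4,5} : Finset (Fin 6)) = {3,4,5} by decide,
    show ({3,4} ∩ {4,5} : Finset (Fin 6)) = {4} by decide] at s
  have m := hf.mono {3,5} {3,4,5} (by decide)
  simp only at h34 h45 h35 h4
  rw [← h34, ← h45, ← h4] at s
  rw [← h35] at m
  have l : Real.negMulLog (2/3) < 2 * Real.negMulLog (1/3) := by
    unfold Real.negMulLog
    have : Real.log (1/3) < Real.log (2/3) := Real.log_lt_log (by norm_num) (by norm_num)
    nlinarith
  linarith

/-- **MP_2f9b3f_lc, Q1, disproved.**  Some extreme point of some polytope of marginal models has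
a contextual entropy function. -/
theorem result : ∃ (n : ℕ) (M : Set (Finset (Fin n))) (k : Fin n → ℕ),
    IsScenario M ∧ (∀ i, 0 < k i) ∧
    ∃ p ∈ (polytope M k).extremePoints ℝ, ¬ NonContextual M (entropy p) :=
  ⟨6, Sc, kk, sc_isScenario, fun _ => by norm_num, P0, P0_extreme, contextual⟩

end Pool.Agent.Results.MP_2f9b3f_lc.ContextualExtremePoint
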